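import Pool.Agent.Lib.Goldbach.Lower

/-!
# Counting the pairs at distance at least five
-/

open Filter Topology
open scoped Nat.Prime

namespace Pool.Agent.Goldbach

/-- Exceptional halves. -/
def Bad (x : ℕ) : Prop :=
  x < 6 ∨ (2 * x + 3).Prime ∨ (2 * x - 3).Prime ∨ (2 * x + 5).Prime ∨ (2 * x - 5).Prime ∨
    x.Prime ∨ (x + 1).Prime

instance : DecidablePred Bad := fun x => by unfold Bad; infer_instance

lemma card_filter_le_primeCounting (N M : ℕ) (f : ℕ → ℕ) (hf : ∀ x < N, 6 ≤ x → f x ≤ M)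
    (hinj : ∀ x y, 6 ≤ x → 6 ≤ y → f x = f y → x = y) :
    ((Finset.range N).filter (fun x => 6 ≤ x ∧ (f x).Prime)).card ≤ π M := by
  rw [Nat.primeCounting, Nat.primeCounting', Nat.count_eq_card_filter_range]
  apply Finset.card_le_card_of_injOn f
  · intro x hx
    simp only [Finset.coe_filter, Finset.mem_range, Set.mem_ofPred_eq] at hx ⊢
    exact ⟨Nat.lt_succ_of_le (hf x hx.1 hx.2.1), hx.2.2⟩
  · intro x hx y hy hxy
    simp only [Finset.coe_filter, Finset.mem_range, Set.mem_ofPred_eq] at hx hy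
    exact hinj x y hx.2.1 hy.2.1 hxy

lemma card_bad_le (N : ℕ) : ((Finset.range N).filter Bad).card ≤ 6 + 6 * π (2 * N + 5) := by
  have h0 : (Finset.range N).filter Bad ⊆ Finset.range 6 ∪
      ((Finset.range N).filter (fun x => 6 ≤ x ∧ (2 * x + 3).Prime) ∪
      ((Finset.range N).filter (fun x => 6 ≤ x ∧ (2 * x - 3).Prime) ∪
      ((Finset.range N).filter (fun x => 6 ≤ x ∧ (2 * x + 5).Prime) ∪
      ((Finset.range N).filter (fun x => 6 ≤ x ∧ (2 * x - 5).Prime) ∪
      ((Finset.range N).filter (fun x => 6 ≤ x ∧ (x).Prime) ∪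
      ((Finset.range N).filter (fun x => 6 ≤ x ∧ (x + 1).Prime))))))) := by
    intro x hx
    simp only [Finset.mem_filter, Finset.mem_range, Finset.mem_union, Bad] at hx ⊢
    by_cases h6 : x < 6
    · left; exact h6
    · have h7 : 6 ≤ x := by omega
      tauto
  have h1 := card_filter_le_primeCounting N (2 * N + 5) (fun x => 2 * x + 3)
    (by intro x _ _; omega) (by intro x y _ _ h; omega)
  have h2 := card_filter_le_primeCounting N (2 * N + 5) (fun x => 2 * x - 3)
    (by intro x _ _; omega) (by intro x y _ _ h; omega)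
  have h3 := card_filter_le_primeCounting N (2 * N + 5) (fun x => 2 * x + 5)
    (by intro x _ _; omega) (by intro x y _ _ h; omega)
  have h4 := card_filter_le_primeCounting N (2 * N + 5) (fun x => 2 * x - 5)
    (by intro x _ _; omega) (by intro x y _ _ h; omega)
  have h5 := card_filter_le_primeCounting N (2 * N + 5) (fun x => x)
    (by intro x _ _; omega) (by intro x y _ _ h; omega)
  have h6 := card_filter_le_primeCounting N (2 * N + 5) (fun x => x + 1)
    (by intro x _ _; omega) (by intro x y _ _ h; omega)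
  refine (Finset.card_le_card h0).trans ?_
  refine (Finset.card_union_le _ _).trans ?_
  rw [Finset.card_range]
  refine (add_le_add le_rfl ((Finset.card_union_le _ _).trans (add_le_add h1
    ((Finset.card_union_le _ _).trans (add_le_add h2
    ((Finset.card_union_le _ _).trans (add_le_add h3
    ((Finset.card_union_le _ _).trans (add_le_add h4
    ((Finset.card_union_le _ _).trans (add_le_add h5 h6))))))))))).trans ?_
  omega

lemma bad_isLittle {δ : ℝ} (hδ : 0 < δ) :
    ∃ N₀ : ℕ, ∀ N ≥ N₀, (((Finset.range N).filter Bad).card : ℝ) ≤ δ * N := by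
  have h1 := Chebyshev.eventually_primeCounting_le (ε := 1) one_pos
  have h2 : Tendsto (fun N : ℕ => ((2 * N + 5 : ℕ) : ℝ)) atTop atTop := by
    apply tendsto_natCast_atTop_atTop.comp
    apply tendsto_atTop_mono (f := fun N : ℕ => N) (fun N => by omega)
    exact tendsto_id
  have h3 := h2.eventually h1
  have h4 : Tendsto (fun N : ℕ => Real.log ((2 * N + 5 : ℕ) : ℝ)) atTop atTop :=
    Real.tendsto_log_atTop.comp h2
  have h5 := h4.eventually_ge_atTop (6 * (Real.log 4 + 1) * 7 * 2 / δ)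
  have h6 : Tendsto (fun N : ℕ => (N : ℝ)) atTop atTop := tendsto_natCast_atTop_atTop
  have h7 := h6.eventually_ge_atTop (12 / δ)
  have h8 := eventually_ge_atTop (1 : ℕ)
  obtain ⟨N₀, hN₀⟩ := eventually_atTop.mp (h3.and (h5.and (h7.and h8)))
  refine ⟨N₀, fun N hN => ?_⟩
  obtain ⟨g1, g2, g3, g4⟩ := hN₀ N hN
  rw [Nat.floor_natCast] at g1
  have hlog : (0 : ℝ) < Real.log ((2 * N + 5 : ℕ) : ℝ) := by
    apply Real.log_pos
    have : (1 : ℕ) < 2 * N + 5 := by omega
    exact_mod_cast this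
  have hN1 : (1 : ℝ) ≤ N := by exact_mod_cast g4
  have hl4 : (0 : ℝ) < Real.log 4 + 1 := by
    have : (0 : ℝ) < Real.log 4 := Real.log_pos (by norm_num)
    linarith
  have e1 : (π (2 * N + 5) : ℝ) ≤ (Real.log 4 + 1) * (7 * N) /
      Real.log ((2 * N + 5 : ℕ) : ℝ) := by
    refine g1.trans ?_
    gcongr
    push_cast
    linarith
  have e2 : (6 : ℝ) * π (2 * N + 5) ≤ δ / 2 * N := by
    have : (6 : ℝ) * ((Real.log 4 + 1) * (7 * N) / Real.log ((2 * N + 5 : ℕ) : ℝ)) ≤
        δ / 2 * N := by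
      rw [← mul_div_assoc, div_le_iff₀ hlog]
      rw [div_le_iff₀ hδ] at g2
      nlinarith
    linarith [mul_le_mul_of_nonneg_left e1 (by norm_num : (0 : ℝ) ≤ 6)]
  have e3 : (6 : ℝ) ≤ δ / 2 * N := by
    rw [div_le_iff₀ hδ] at g3
    linarith
  have e4 : (((Finset.range N).filter Bad).card : ℝ) ≤ 6 + 6 * π (2 * N + 5) := by
    exact_mod_cast card_bad_le N
  linarith

/-- The residue classes modulo `30` of the pairs used. -/
def classPairs : Finset (ℕ × ℕ) :=
  (Finset.range 30 ×ˢ Finset.range 30).filter fun p =>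
    (p.1 + p.2) % 2 = 1 ∧ ((p.1 % 3 ≠ 0 ∧ p.2 % 3 ≠ 0) ∨
      (p.1 % 3 = 0 ∧ p.2 % 3 = 0 ∧ (p.1 % 5 = 2 ∨ p.1 % 5 = 3) ∧ (p.2 % 5 = 2 ∨ p.2 % 5 = 3)))

lemma card_classPairs : classPairs.card = 208 := by decide +kernel

/-- The condition defining the pairs. -/
def PairCond (x y : ℕ) : Prop :=
  (x + y) % 2 = 1 ∧ ((x % 3 ≠ 0 ∧ y % 3 ≠ 0) ∨
      (x % 3 = 0 ∧ y % 3 = 0 ∧ (x % 5 = 2 ∨ x % 5 = 3) ∧ (y % 5 = 2 ∨ y % 5 = 3)))

instance (x y : ℕ) : Decidable (PairCond x y) := by unfold PairCond; infer_instance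

lemma card_pairs_ge (m : ℕ) : 208 * m ^ 2 ≤
    ((Finset.range (30 * m) ×ˢ Finset.range (30 * m)).filter
      (fun p => PairCond p.1 p.2)).card := by
  have h : (classPairs ×ˢ (Finset.range m ×ˢ Finset.range m)).card = 208 * m ^ 2 := by
    rw [Finset.card_product, Finset.card_product, card_classPairs, Finset.card_range, sq]
  rw [← h]
  apply Finset.card_le_card_of_injOn
    (fun q : (ℕ × ℕ) × (ℕ × ℕ) => (30 * q.2.1 + q.1.1, 30 * q.2.2 + q.1.2))
  · rintro ⟨⟨r, s⟩, ⟨i, j⟩⟩ hq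
    simp only [Finset.coe_product, Set.mem_prod, Finset.mem_coe, Finset.mem_range, classPairs,
      Finset.mem_filter, Finset.mem_product, Finset.coe_filter, Set.mem_ofPred_eq] at hq ⊢
    obtain ⟨⟨⟨h1, h2⟩, h3, h4⟩, h5, h6⟩ := hq
    unfold PairCond
    omega
  · rintro ⟨⟨r, s⟩, ⟨i, j⟩⟩ hq ⟨⟨r', s'⟩, ⟨i', j'⟩⟩ hq' h
    simp only [Finset.coe_product, Set.mem_prod, Finset.mem_coe, Finset.mem_range, classPairs,
      Finset.mem_filter, Finset.mem_product, Prod.mk.injEq] at hq hq' h ⊢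
    omega

/-- Lower bound for the number of pairs of non-bad halves. -/
lemma card_good_pairs_ge (m : ℕ) : 208 * m ^ 2 ≤
    ((Finset.range (30 * m) ×ˢ Finset.range (30 * m)).filter
      (fun p => PairCond p.1 p.2 ∧ ¬ Bad p.1 ∧ ¬ Bad p.2)).card +
      2 * (30 * m) * ((Finset.range (30 * m)).filter Bad).card := by
  refine (card_pairs_ge m).trans ?_
  have hsub : ((Finset.range (30 * m) ×ˢ Finset.range (30 * m)).filter
      (fun p => PairCond p.1 p.2)) ⊆
      ((Finset.range (30 * m) ×ˢ Finset.range (30 * m)).filter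
      (fun p => PairCond p.1 p.2 ∧ ¬ Bad p.1 ∧ ¬ Bad p.2)) ∪
      ((((Finset.range (30 * m)).filter Bad) ×ˢ Finset.range (30 * m)) ∪
       (Finset.range (30 * m) ×ˢ ((Finset.range (30 * m)).filter Bad))) := by
    rintro ⟨x, y⟩ h
    simp only [Finset.mem_filter, Finset.mem_product, Finset.mem_union] at h ⊢
    by_cases hx : Bad x
    · exact Or.inr (Or.inl ⟨⟨h.1.1, hx⟩, h.1.2⟩)
    · by_cases hy : Bad y
      · exact Or.inr (Or.inr ⟨h.1.1, h.1.2, hy⟩)
      · exact Or.inl ⟨h.1, h.2, hx, hy⟩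
  refine (Finset.card_le_card hsub).trans ((Finset.card_union_le _ _).trans ?_)
  refine add_le_add le_rfl ((Finset.card_union_le _ _).trans ?_)
  rw [Finset.card_product, Finset.card_product, Finset.card_range]
  ring_nf
  exact le_rfl

end Pool.Agent.Goldbach
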