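import Mathlib

/-!
# Finite Goldbach graphs

Definitions for problem `MP_443e5f_co`, and the basic facts on distances in such graphs.
-/

namespace Pool.Agent.Goldbach

/-- The graph on a set `V` of natural numbers in which two distinct vertices `a`, `b` are
adjacent iff `(a + b) / 2` and `|a - b| / 2` both lie in `S`. -/
def halfGraph (V S : Set ℕ) : SimpleGraph V where
  Adj a b := a ≠ b ∧ ((a : ℕ) + (b : ℕ)) / 2 ∈ S ∧ (((a : ℕ) : ℤ) - ((b : ℕ) : ℤ)).natAbs / 2 ∈ S
  symm := ⟨by
    intro a b ⟨h1, h2, h3⟩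
    refine ⟨h1.symm, by rwa [add_comm], ?_⟩
    rwa [← Int.natAbs_neg, neg_sub]⟩
  loopless := ⟨fun a h => h.1 rfl⟩

/-- The vertex set `{0, 2, …, 2n}`. -/
def goldbachVertices (n : ℕ) : Set ℕ := {a | Even a ∧ a ≤ 2 * n}

/-- The finite Goldbach graph `G_n`: vertices `0, 2, …, 2n`; distinct `a`, `b` are adjacent iff
`(a + b) / 2` and `|a - b| / 2` are both odd primes less than `2n`. -/
def goldbachGraph (n : ℕ) : SimpleGraph (goldbachVertices n) :=
  halfGraph (goldbachVertices n) {p | p.Prime ∧ Odd p ∧ p < 2 * n}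

/-- The vertex set `{2, 4, …, 2n}`. -/
def evenVertices (n : ℕ) : Set ℕ := {a | Even a ∧ 2 ≤ a ∧ a ≤ 2 * n}

/-- The finite near Goldbach graph `G(n)`: vertices `2, 4, …, 2n`; distinct `a`, `b` are adjacent
iff `(a + b) / 2` and `|a - b| / 2` both lie in `{1} ∪ {odd primes less than 2n}`. -/
def nearGoldbachGraph (n : ℕ) : SimpleGraph (evenVertices n) :=
  halfGraph (evenVertices n) ({1} ∪ {p | p.Prime ∧ Odd p ∧ p < 2 * n})

/-- The graph `G(p, n)`: vertices `2, 4, …, 2n`; distinct `a`, `b` are adjacent iff `(a + b) / 2`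
and `|a - b| / 2` are odd numbers at most `2n - 1` that are not of the form `p k` with `k > 1`. -/
def modGraph (p n : ℕ) : SimpleGraph (evenVertices n) :=
  halfGraph (evenVertices n) {m | Odd m ∧ m ≤ 2 * n - 1 ∧ ¬ ∃ k, 1 < k ∧ m = p * k}

/-- Adjacency in halved coordinates. -/
lemma halfGraph_adj_iff {V S : Set ℕ} {a b : V} {x y : ℕ} (ha : (a : ℕ) = 2 * x)
    (hb : (b : ℕ) = 2 * y) :
    (halfGraph V S).Adj a b ↔ x ≠ y ∧ x + y ∈ S ∧ ((x : ℤ) - y).natAbs ∈ S := by
  have h1 : ((a : ℕ) + (b : ℕ)) / 2 = x + y := by omega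
  have h2 : (((a : ℕ) : ℤ) - ((b : ℕ) : ℤ)).natAbs / 2 = ((x : ℤ) - y).natAbs := by omega
  have h3 : a ≠ b ↔ x ≠ y := by
    rw [Ne, Subtype.ext_iff]
    omega
  show (a ≠ b ∧ ((a : ℕ) + (b : ℕ)) / 2 ∈ S ∧
    (((a : ℕ) : ℤ) - ((b : ℕ) : ℤ)).natAbs / 2 ∈ S) ↔ _
  rw [h1, h2, h3]

/-- If all walks from `a` to `b` have odd length and there is none of length `1` or `3`, the
distance is at least `5`. -/
lemma five_le_edist {V : Type*} {G : SimpleGraph V} {a b : V}
    (hpar : ∀ w : G.Walk a b, Odd w.length) (h1 : ¬ G.Adj a b)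
    (h3 : ∀ u v, G.Adj a u → G.Adj u v → G.Adj v b → False) : 5 ≤ G.edist a b := by
  refine le_iInf fun w => ?_
  have hodd := hpar w
  have key : 5 ≤ w.length := by
    by_contra hlt
    have hcases : w.length = 1 ∨ w.length = 3 := by
      obtain ⟨k, hk⟩ := hodd
      omega
    rcases hcases with h | h
    · cases w with
      | nil => simp at h
      | cons hadj q =>
        have hq : q.length = 0 := by simpa using h
        have := SimpleGraph.Walk.eq_of_length_eq_zero hq
        subst this
        exact h1 hadj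
    · cases w with
      | nil => simp at h
      | cons e1 q1 =>
        cases q1 with
        | nil => simp at h
        | cons e2 q2 =>
          cases q2 with
          | nil => simp at h
          | cons e3 q3 =>
            have hq : q3.length = 0 := by simpa using h
            have := SimpleGraph.Walk.eq_of_length_eq_zero hq
            subst this
            exact h3 _ _ e1 e2 e3
  exact_mod_cast key

/-- Parity of walk lengths from a two-colouring. -/
lemma walk_parity {V : Type*} {G : SimpleGraph V} (c : V → ℕ)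
    (hc : ∀ a b, G.Adj a b → Odd (c a + c b)) {a b : V} (w : G.Walk a b) :
    (Odd w.length ↔ Odd (c a + c b)) := by
  induction w with
  | nil => simp
  | cons h p ih =>
    have := hc _ _ h
    rw [SimpleGraph.Walk.length_cons]
    grind [Nat.odd_add]

end Pool.Agent.Goldbach
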