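import Pool.Agent.Lib.Goldbach.Count

/-!
# A positive proportion of pairs at distance at least five

For both families of graphs of problem `MP_443e5f_co`, the number of ordered pairs of vertices at
distance at least `5` is at least `(52/225 - ε) n ^ 2` for all large `n`.
-/

namespace Pool.Agent.Lib.Goldbach.FivePairs

open Pool.Agent.Goldbach

/-- The general counting statement. -/
theorem card_pairs {V S : Set ℕ} (hfin : V.Finite) (n : ℕ) (hV : ∀ a ∈ V, Even a)
    (hV' : ∀ x, 6 ≤ x → x ≤ n → 2 * x ∈ V) (hS : ∀ m ∈ S, m = 1 ∨ (m.Prime ∧ Odd m)) :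
    208 * ((n + 1) / 30) ^ 2 ≤ {p : V × V | 5 ≤ (halfGraph V S).edist p.1 p.2}.ncard +
      2 * (30 * ((n + 1) / 30)) * ((Finset.range (30 * ((n + 1) / 30))).filter Bad).card := by
  have hS1 : ∀ m ∈ S, Odd m := by
    intro m hm
    rcases hS m hm with h | h
    · rw [h]; exact odd_one
    · exact h.2
  have hS3 : ∀ m ∈ S, 3 ∣ m → m = 3 := by
    intro m hm h3
    rcases hS m hm with h | h
    · rw [h] at h3; omega
    · exact ((Nat.prime_dvd_prime_iff_eq Nat.prime_three h.1).mp h3).symm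
  have hS5 : ∀ m ∈ S, 5 ∣ m → m = 5 := by
    intro m hm h3
    rcases hS m hm with h | h
    · rw [h] at h3; omega
    · exact ((Nat.prime_dvd_prime_iff_eq Nat.prime_five h.1).mp h3).symm
  have hSn : ∀ m, 1 < m → ¬ m.Prime → m ∉ S := by
    intro m h1 h2 h3
    rcases hS m h3 with h | h
    · omega
    · exact h2 h.1
  refine (card_good_pairs_ge ((n + 1) / 30)).trans (Nat.add_le_add_right ?_ _)
  have : Finite V := hfin
  rw [← Set.ncard_coe_finset]
  have hsub : (((Finset.range (30 * ((n + 1) / 30)) ×ˢ Finset.range (30 * ((n + 1) / 30))).filter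
      (fun p => PairCond p.1 p.2 ∧ ¬ Bad p.1 ∧ ¬ Bad p.2) : Finset (ℕ × ℕ)) : Set (ℕ × ℕ)) ⊆
      (fun p : V × V => ((p.1 : ℕ) / 2, (p.2 : ℕ) / 2)) ''
        {p : V × V | 5 ≤ (halfGraph V S).edist p.1 p.2} := by
    rintro ⟨x, y⟩ hxy
    simp only [Finset.coe_filter, Finset.mem_product, Finset.mem_range, Set.mem_ofPred_eq] at hxy
    obtain ⟨⟨hx, hy⟩, hc, hbx, hby⟩ := hxy
    unfold Bad at hbx hby
    push Not at hbx hby
    obtain ⟨hx6, hx1, hx2, hx3, hx4, hx5, hx7⟩ := hbx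
    obtain ⟨hy6, hy1, hy2, hy3, hy4, hy5, hy7⟩ := hby
    have hxV := hV' x hx6 (by omega)
    have hyV := hV' y hy6 (by omega)
    refine ⟨(⟨2 * x, hxV⟩, ⟨2 * y, hyV⟩), ?_, ?_⟩
    · show 5 ≤ (halfGraph V S).edist ⟨2 * x, hxV⟩ ⟨2 * y, hyV⟩
      obtain ⟨hpar, hcl⟩ := hc
      rcases hcl with ⟨h3, h4⟩ | ⟨h3, h4, h5, h6⟩
      · apply five_le_of_good hV hS1 hS3 (x := x) (y := y) rfl rfl (by omega) (by omega)
          (hSn _ (by omega) hx1) (hSn _ (by omega) hx2) (fun _ => hSn _ (by omega) hx5)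
          (by omega) (by omega) (hSn _ (by omega) hy1) (hSn _ (by omega) hy2)
          (fun _ => hSn _ (by omega) hy5) (Nat.odd_iff.mpr hpar)
      · apply five_le_of_good' hV hS1 hS3 hS5 (x := x) (y := y) rfl rfl (by omega) h5 hx6
          (hSn _ (by omega) hx1) (hSn _ (by omega) hx2) (hSn _ (by omega) hx3)
          (hSn _ (by omega) hx4) (hSn _ (by omega) hx7) (by omega) h6 hy6
          (hSn _ (by omega) hy1) (hSn _ (by omega) hy2) (hSn _ (by omega) hy3)
          (hSn _ (by omega) hy4) (hSn _ (by omega) hy7) (Nat.odd_iff.mpr hpar)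
    · simp
  exact (Set.ncard_le_ncard hsub ((Set.toFinite _).image _)).trans
    (Set.ncard_image_le (Set.toFinite _))

/-- The asymptotic form. -/
theorem asymptotic {ε : ℝ} (hε : 0 < ε) : ∃ N : ℕ, ∀ n ≥ N, ∀ c : ℕ,
    208 * ((n + 1) / 30) ^ 2 ≤ c +
      2 * (30 * ((n + 1) / 30)) * ((Finset.range (30 * ((n + 1) / 30))).filter Bad).card →
    (52 / 225 - ε) * (n : ℝ) ^ 2 ≤ c := by
  obtain ⟨N₀, hN₀⟩ := bad_isLittle (δ := ε / 8) (by positivity)
  obtain ⟨N₁, hN₁⟩ := exists_nat_gt (60 / ε)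
  refine ⟨max (N₀ + 30) (max N₁ 1), fun n hn c hc => ?_⟩
  have hn1 : N₀ + 30 ≤ n := le_trans (le_max_left _ _) hn
  have hn2 : N₁ ≤ n := le_trans (le_max_left _ _) (le_trans (le_max_right _ _) hn)
  have hn3 : 1 ≤ n := le_trans (le_max_right _ _) (le_trans (le_max_right _ _) hn)
  set m := (n + 1) / 30 with hm
  have h1 : 30 * m ≤ n + 1 := by omega
  have h2 : n + 1 < 30 * m + 30 := by omega
  have h3 := hN₀ (30 * m) (by omega)
  have h4 : (208 : ℝ) * (m : ℝ) ^ 2 ≤ c + 2 * (30 * (m : ℝ)) *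
      (((Finset.range (30 * m)).filter Bad).card : ℝ) := by exact_mod_cast hc
  have h5 : ((n : ℝ) + 1) < 30 * m + 30 := by exact_mod_cast h2
  have h6 : (30 * (m : ℝ)) ≤ n + 1 := by exact_mod_cast h1
  have h7 : (1 : ℝ) ≤ n := by exact_mod_cast hn3
  have h8 : 60 / ε < (n : ℝ) := lt_of_lt_of_le hN₁ (by exact_mod_cast hn2)
  have h9 : 60 < ε * n := by
    rw [div_lt_iff₀ hε] at h8
    linarith
  push_cast at h3
  have h10 : (0 : ℝ) ≤ m := Nat.cast_nonneg _
  have h11 : 2 * (30 * (m : ℝ)) * (((Finset.range (30 * m)).filter Bad).card : ℝ) ≤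
      ε / 4 * (30 * (m : ℝ)) ^ 2 := by
    have := mul_le_mul_of_nonneg_left h3 (by positivity : (0 : ℝ) ≤ 2 * (30 * (m : ℝ)))
    nlinarith
  have h12 : (c : ℝ) ≥ (52 / 225 - ε / 4) * (30 * (m : ℝ)) ^ 2 := by nlinarith
  rcases le_total (52 / 225) (ε / 4) with h13 | h13
  · have h14 : (0 : ℝ) ≤ c := Nat.cast_nonneg _
    have h15 : (52 / 225 - ε) * (n : ℝ) ^ 2 ≤ 0 := by
      apply mul_nonpos_of_nonpos_of_nonneg _ (sq_nonneg _)
      linarith
    linarith
  · have h14 : (n : ℝ) - 29 ≤ 30 * m := by linarith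
    have h15 : (30 : ℝ) ≤ n := by
      have : 30 ≤ n := by omega
      exact_mod_cast this
    have h16 : ((n : ℝ) - 29) ^ 2 ≤ (30 * (m : ℝ)) ^ 2 := by
      apply pow_le_pow_left₀ (by linarith) h14
    have h17 : (52 / 225 - ε / 4) * ((n : ℝ) - 29) ^ 2 ≤
        (52 / 225 - ε / 4) * (30 * (m : ℝ)) ^ 2 :=
      mul_le_mul_of_nonneg_left h16 (by linarith)
    have h18 : (0 : ℝ) ≤ (ε * n - 60) * n := by
      apply mul_nonneg <;> linarith
    nlinarith

/-- For every `ε > 0` and all large `n`, at least `(52/225 - ε) n²` ordered pairs of vertices of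
the finite Goldbach graph `G_n`, and at least as many of the near Goldbach graph `G(n)`, are at
distance at least `5` (possibly infinite). -/
theorem five_pairs (ε : ℝ) (hε : 0 < ε) : ∃ N : ℕ, ∀ n ≥ N,
    (52 / 225 - ε) * (n : ℝ) ^ 2 ≤ {p : goldbachVertices n × goldbachVertices n |
        5 ≤ (goldbachGraph n).edist p.1 p.2}.ncard ∧
    (52 / 225 - ε) * (n : ℝ) ^ 2 ≤ {p : evenVertices n × evenVertices n |
        5 ≤ (nearGoldbachGraph n).edist p.1 p.2}.ncard := by
  obtain ⟨N, hN⟩ := asymptotic hε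
  refine ⟨N, fun n hn => ⟨hN n hn _ ?_, hN n hn _ ?_⟩⟩
  · apply card_pairs (V := goldbachVertices n)
      (S := {p | p.Prime ∧ Odd p ∧ p < 2 * n}) _ n
    · intro a ha
      exact ha.1
    · intro x _ hx
      exact ⟨even_two_mul x, by omega⟩
    · intro m hm
      exact Or.inr ⟨hm.1, hm.2.1⟩
    · exact (Set.finite_Iic (2 * n)).subset fun a ha => ha.2
  · apply card_pairs (V := evenVertices n)
      (S := {1} ∪ {p | p.Prime ∧ Odd p ∧ p < 2 * n}) _ n
    · intro a ha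
      exact ha.1
    · intro x hx6 hx
      exact ⟨even_two_mul x, by omega, by omega⟩
    · intro m hm
      rcases hm with hm | hm
      · exact Or.inl hm
      · exact Or.inr ⟨hm.1, hm.2.1⟩
    · exact (Set.finite_Iic (2 * n)).subset fun a ha => ha.2.2

end Pool.Agent.Lib.Goldbach.FivePairs
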