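import Pool.Agent.Lib.Goldbach.Defs

/-!
# Pairs of vertices at distance at least five
-/

namespace Pool.Agent.Goldbach

/-- Half of a vertex `x` is good if it is not a multiple of `3`, at least `4`, and `2x + 3`,
`2x - 3` and `x` are not admissible. -/
def Good (S : Set ℕ) (x : ℕ) : Prop :=
  ¬ 3 ∣ x ∧ 4 ≤ x ∧ 2 * x + 3 ∉ S ∧ 2 * x - 3 ∉ S ∧ x ∉ S

lemma exists_half {V : Set ℕ} (hV : ∀ a ∈ V, Even a) (a : V) : ∃ x : ℕ, (a : ℕ) = 2 * x := by
  obtain ⟨r, hr⟩ := hV a a.2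
  exact ⟨r, by omega⟩

/-- All neighbours of a good vertex are multiples of three. -/
lemma three_dvd_of_adj_good {V S : Set ℕ} (hS3 : ∀ m ∈ S, 3 ∣ m → m = 3) {a u : V} {x t : ℕ}
    (ha : (a : ℕ) = 2 * x) (hu : (u : ℕ) = 2 * t) (hx : ¬ 3 ∣ x) (hx4 : 4 ≤ x)
    (hx1 : 2 * x + 3 ∉ S) (hx2 : 2 * x - 3 ∉ S)
    (h : (halfGraph V S).Adj a u) : 3 ∣ t := by
  rw [halfGraph_adj_iff ha hu] at h
  obtain ⟨hne, hs, hd⟩ := h
  by_contra ht
  have hcase : 3 ∣ x + t ∨ 3 ∣ ((x : ℤ) - t).natAbs := by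
    have hx' : x % 3 = 1 ∨ x % 3 = 2 := by omega
    have ht' : t % 3 = 1 ∨ t % 3 = 2 := by omega
    rcases le_total x t with hle | hle
    · have h6 : ((x : ℤ) - t).natAbs = t - x := by omega
      rw [h6]
      rcases hx' with hx' | hx' <;> rcases ht' with ht' | ht' <;>
        first | (left; omega) | (right; omega)
    · have h6 : ((x : ℤ) - t).natAbs = x - t := by omega
      rw [h6]
      rcases hx' with hx' | hx' <;> rcases ht' with ht' | ht' <;>
        first | (left; omega) | (right; omega)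
  rcases hcase with h3 | h3
  · have := hS3 _ hs h3
    omega
  · have h4 := hS3 _ hd h3
    rcases Nat.lt_or_gt_of_ne hne with h5 | h5
    · have : t = x + 3 := by omega
      rw [this] at hs
      apply hx1
      have h6 : 2 * x + 3 = x + (x + 3) := by ring
      rwa [h6]
    · have : t = x - 3 := by omega
      rw [this] at hs
      apply hx2
      have h6 : 2 * x - 3 = x + (x - 3) := by omega
      rwa [h6]

theorem five_le_of_good {V S : Set ℕ} (hV : ∀ a ∈ V, Even a) (hS1 : ∀ m ∈ S, Odd m)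
    (hS3 : ∀ m ∈ S, 3 ∣ m → m = 3) {a b : V} {x y : ℕ} (ha : (a : ℕ) = 2 * x)
    (hb : (b : ℕ) = 2 * y) (hx : ¬ 3 ∣ x) (hx4 : 4 ≤ x) (hx1 : 2 * x + 3 ∉ S)
    (hx2 : 2 * x - 3 ∉ S) (hx0 : 0 ∈ V → x ∉ S) (hy : ¬ 3 ∣ y) (hy4 : 4 ≤ y)
    (hy1 : 2 * y + 3 ∉ S) (hy2 : 2 * y - 3 ∉ S) (hy0 : 0 ∈ V → y ∉ S) (hxy : Odd (x + y)) :
    5 ≤ (halfGraph V S).edist a b := by
  apply five_le_edist
  · intro w
    have hc : ∀ u v : V, (halfGraph V S).Adj u v → Odd ((u : ℕ) / 2 + (v : ℕ) / 2) := by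
      intro u v huv
      obtain ⟨s, hs⟩ := exists_half hV u
      obtain ⟨t, ht⟩ := exists_half hV v
      rw [halfGraph_adj_iff hs ht] at huv
      have := hS1 _ huv.2.1
      have h1 : (u : ℕ) / 2 = s := by omega
      have h2 : (v : ℕ) / 2 = t := by omega
      rwa [h1, h2]
    rw [walk_parity (fun u : V => (u : ℕ) / 2) hc w]
    have h1 : (a : ℕ) / 2 = x := by omega
    have h2 : (b : ℕ) / 2 = y := by omega
    show Odd ((a : ℕ) / 2 + (b : ℕ) / 2)
    rwa [h1, h2]
  · intro h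
    exact hy (three_dvd_of_adj_good hS3 ha hb hx hx4 hx1 hx2 h)
  · intro u v h1 h2 h3
    obtain ⟨s, hs⟩ := exists_half hV u
    obtain ⟨t, ht⟩ := exists_half hV v
    have hs3 := three_dvd_of_adj_good hS3 ha hs hx hx4 hx1 hx2 h1
    have ht3 := three_dvd_of_adj_good hS3 hb ht hy hy4 hy1 hy2 h3.symm
    rw [halfGraph_adj_iff hs ht] at h2
    have h4 := hS3 _ h2.2.1 (Dvd.dvd.add hs3 ht3)
    have h5 := hS3 _ h2.2.2 (by
      rcases le_total s t with hle | hle
      · have h6 : ((s : ℤ) - t).natAbs = t - s := by omega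
        rw [h6]; omega
      · have h6 : ((s : ℤ) - t).natAbs = s - t := by omega
        rw [h6]; omega)
    rcases Nat.eq_zero_or_pos s with h6 | h6
    · subst h6
      rw [halfGraph_adj_iff ha hs] at h1
      refine hx0 ?_ (by simpa using h1.2.1)
      have : (u : ℕ) = 0 := by omega
      rw [← this]; exact u.2
    · have h7 : t = 0 := by omega
      subst h7
      rw [halfGraph_adj_iff ht hb] at h3
      refine hy0 ?_ (by simpa using h3.2.1)
      have : (v : ℕ) = 0 := by omega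
      rw [← this]; exact v.2

/-- The second family: both halves are multiples of `3` and congruent to `±2` modulo `5`. -/
theorem five_le_of_good' {V S : Set ℕ} (hV : ∀ a ∈ V, Even a) (hS1 : ∀ m ∈ S, Odd m)
    (hS3 : ∀ m ∈ S, 3 ∣ m → m = 3) (hS5 : ∀ m ∈ S, 5 ∣ m → m = 5) {a b : V} {x y : ℕ}
    (ha : (a : ℕ) = 2 * x) (hb : (b : ℕ) = 2 * y)
    (hx : 3 ∣ x) (hx5 : x % 5 = 2 ∨ x % 5 = 3) (hx6 : 6 ≤ x) (hx1 : 2 * x + 3 ∉ S)
    (hx2 : 2 * x - 3 ∉ S) (hx3 : 2 * x + 5 ∉ S) (hx4 : 2 * x - 5 ∉ S) (hx0 : x + 1 ∉ S)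
    (hy : 3 ∣ y) (hy5 : y % 5 = 2 ∨ y % 5 = 3) (hy6 : 6 ≤ y) (hy1 : 2 * y + 3 ∉ S)
    (hy2 : 2 * y - 3 ∉ S) (hy3 : 2 * y + 5 ∉ S) (hy4 : 2 * y - 5 ∉ S) (hy0 : y + 1 ∉ S)
    (hxy : Odd (x + y)) :
    5 ≤ (halfGraph V S).edist a b := by
  -- neighbours of such vertices
  have nb : ∀ {c u : V} {z t : ℕ}, (c : ℕ) = 2 * z → (u : ℕ) = 2 * t → 3 ∣ z →
      (z % 5 = 2 ∨ z % 5 = 3) → 6 ≤ z → 2 * z + 3 ∉ S → 2 * z - 3 ∉ S → 2 * z + 5 ∉ S →
      2 * z - 5 ∉ S → z + 1 ∉ S → (halfGraph V S).Adj c u →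
      ¬ 3 ∣ t ∧ (t % 5 = 0 ∨ t % 5 = 1 ∨ t % 5 = 4) ∧ t ≠ 1 := by
    intro c u z t hc hu h3 h5 h6 h7 h8 h9 h10 h11 hadj
    rw [halfGraph_adj_iff hc hu] at hadj
    obtain ⟨hne, hs, hd⟩ := hadj
    refine ⟨?_, ?_, ?_⟩
    · intro ht
      have h12 := hS3 _ hs (Dvd.dvd.add h3 ht)
      omega
    · by_contra hcon
      have ht : t % 5 = 2 ∨ t % 5 = 3 := by omega
      have hcase : 5 ∣ z + t ∨ 5 ∣ ((z : ℤ) - t).natAbs := by
        rcases le_total z t with hle | hle
        · have h12 : ((z : ℤ) - t).natAbs = t - z := by omega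
          rw [h12]
          rcases h5 with h5 | h5 <;> rcases ht with ht | ht <;>
            first | (left; omega) | (right; omega)
        · have h12 : ((z : ℤ) - t).natAbs = z - t := by omega
          rw [h12]
          rcases h5 with h5 | h5 <;> rcases ht with ht | ht <;>
            first | (left; omega) | (right; omega)
      rcases hcase with h | h
      · have := hS5 _ hs h
        omega
      · have h12 := hS5 _ hd h
        rcases Nat.lt_or_gt_of_ne hne with h13 | h13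
        · have h14 : z + t = 2 * z + 5 := by omega
          rw [h14] at hs
          exact h9 hs
        · have h14 : z + t = 2 * z - 5 := by omega
          rw [h14] at hs
          exact h10 hs
    · intro ht
      rw [ht] at hs
      exact h11 hs
  apply five_le_edist
  · intro w
    have hc : ∀ u v : V, (halfGraph V S).Adj u v → Odd ((u : ℕ) / 2 + (v : ℕ) / 2) := by
      intro u v huv
      obtain ⟨s, hs⟩ := exists_half hV u
      obtain ⟨t, ht⟩ := exists_half hV v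
      rw [halfGraph_adj_iff hs ht] at huv
      have := hS1 _ huv.2.1
      have h1 : (u : ℕ) / 2 = s := by omega
      have h2 : (v : ℕ) / 2 = t := by omega
      rwa [h1, h2]
    rw [walk_parity (fun u : V => (u : ℕ) / 2) hc w]
    have h1 : (a : ℕ) / 2 = x := by omega
    have h2 : (b : ℕ) / 2 = y := by omega
    show Odd ((a : ℕ) / 2 + (b : ℕ) / 2)
    rwa [h1, h2]
  · intro h
    exact (nb ha hb hx hx5 hx6 hx1 hx2 hx3 hx4 hx0 h).1 hy
  · intro u v h1 h2 h3
    obtain ⟨s, hs⟩ := exists_half hV u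
    obtain ⟨t, ht⟩ := exists_half hV v
    obtain ⟨hs3, hs5, hs1⟩ := nb ha hs hx hx5 hx6 hx1 hx2 hx3 hx4 hx0 h1
    obtain ⟨ht3, ht5, ht1⟩ := nb hb ht hy hy5 hy6 hy1 hy2 hy3 hy4 hy0 h3.symm
    rw [halfGraph_adj_iff hs ht] at h2
    obtain ⟨hne, hsum, hd⟩ := h2
    have hcase : 3 ∣ s + t ∨ 3 ∣ ((s : ℤ) - t).natAbs := by
      have hx' : s % 3 = 1 ∨ s % 3 = 2 := by omega
      have ht' : t % 3 = 1 ∨ t % 3 = 2 := by omega
      rcases le_total s t with hle | hle
      · have h6 : ((s : ℤ) - t).natAbs = t - s := by omega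
        rw [h6]
        rcases hx' with hx' | hx' <;> rcases ht' with ht' | ht' <;>
          first | (left; omega) | (right; omega)
      · have h6 : ((s : ℤ) - t).natAbs = s - t := by omega
        rw [h6]
        rcases hx' with hx' | hx' <;> rcases ht' with ht' | ht' <;>
          first | (left; omega) | (right; omega)
    rcases hcase with h | h
    · have := hS3 _ hsum h
      omega
    · have h4 := hS3 _ hd h
      have h5 : 5 ∣ s + t := by
        rcases Nat.lt_or_gt_of_ne hne with h6 | h6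
        · have : t = s + 3 := by omega
          omega
        · have : s = t + 3 := by omega
          omega
      have := hS5 _ hsum h5
      omega

end Pool.Agent.Goldbach
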