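import Pool.Agent.Lib.Goldbach.Lower
import Pool.Agent.Lib.Sieve.Gap

/-!
# Sieved Goldbach graphs have diameter at most five
-/

namespace Pool.Agent.Goldbach

/-- The edge-intersection of the graphs `G(p, n)`, `p ∈ P`. -/
def interGraph (P : Set ℕ) (n : ℕ) : SimpleGraph (evenVertices n) := ⨅ p ∈ P, modGraph p n

/-- A sufficient condition for adjacency in halved coordinates. -/
def Edge (z : ℕ) (x y : ℤ) : Prop :=
  Odd (x + y) ∧ ∀ p : ℕ, p.Prime → p ≤ z → p ≠ 2 → ¬ (p : ℤ) ∣ x + y ∧ ¬ (p : ℤ) ∣ x - y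

lemma Edge.symm {z : ℕ} {x y : ℤ} (h : Edge z x y) : Edge z y x := by
  refine ⟨by rw [add_comm]; exact h.1, fun p hp hpz hp2 => ?_⟩
  obtain ⟨h1, h2⟩ := h.2 p hp hpz hp2
  exact ⟨by rwa [add_comm], by rwa [← dvd_neg, neg_sub]⟩

lemma Edge.ne {z : ℕ} {x y : ℤ} (h : Edge z x y) : x ≠ y := by
  rintro rfl
  obtain ⟨k, hk⟩ := h.1
  omega

section sieve

variable {K : ℕ} (hK : ∀ z : ℕ, 2 ≤ z → ∀ Ω : (p : ℕ) → Finset (ZMod p),
    (∀ p, p.Prime → p ≤ z → (Ω p).card ≤ 4 ∧ (Ω p).card < p) →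
    ∀ (a : ℤ) (M : ℕ), z ^ K ≤ M →
      ∃ u : ℤ, a ≤ u ∧ u < a + M ∧ ∀ p, p.Prime → p ≤ z → (u : ZMod p) ∉ Ω p)

include hK

/-- Common neighbours. -/
lemma exists_common {z n : ℕ} (hz : 2 ≤ z) (hn : z ^ K ≤ n) {x y : ℤ}
    (h2 : Even (x + y)) (h3 : 3 ∣ x ↔ 3 ∣ y) :
    ∃ u : ℤ, 1 ≤ u ∧ u ≤ n ∧ Edge z x u ∧ Edge z u y := by
  classical
  have hΩ : ∀ p : ℕ, p.Prime → p ≤ z →
      ((fun p : ℕ => if p = 2 then {(x : ZMod p)} else
        ({(x : ZMod p), (-x : ZMod p), (y : ZMod p), (-y : ZMod p)} : Finset (ZMod p))) p).card ≤ 4 ∧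
      ((fun p : ℕ => if p = 2 then {(x : ZMod p)} else
        ({(x : ZMod p), (-x : ZMod p), (y : ZMod p), (-y : ZMod p)} : Finset (ZMod p))) p).card < p := by
    intro p hp hpz
    show (if p = 2 then {(x : ZMod p)} else ({(x : ZMod p), (-x : ZMod p), (y : ZMod p),
      (-y : ZMod p)} : Finset (ZMod p))).card ≤ 4 ∧ (if p = 2 then {(x : ZMod p)} else
      ({(x : ZMod p), (-x : ZMod p), (y : ZMod p), (-y : ZMod p)} : Finset (ZMod p))).card < p
    by_cases hp2 : p = 2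
    · subst hp2
      rw [if_pos rfl]
      simp
    · rw [if_neg hp2]
      have hc4 : ({(x : ZMod p), (-x : ZMod p), (y : ZMod p), (-y : ZMod p)} :
          Finset (ZMod p)).card ≤ 4 := Finset.card_le_four
      refine ⟨hc4, ?_⟩
      by_cases hp3 : p = 3
      · subst hp3
        have hxy : (y : ZMod 3) = x ∨ (y : ZMod 3) = -x := by
          have h4 : ((3 : ℕ) : ℤ) ∣ y - x ∨ ((3 : ℕ) : ℤ) ∣ y + x := by
            push_cast
            have hx' : x % 3 = 0 ∨ x % 3 = 1 ∨ x % 3 = 2 := by omega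
            have hy' : y % 3 = 0 ∨ y % 3 = 1 ∨ y % 3 = 2 := by omega
            rcases hx' with h | h | h <;> rcases hy' with h' | h' | h' <;> omega
          rcases h4 with h4 | h4
          · left
            rw [← ZMod.intCast_zmod_eq_zero_iff_dvd] at h4
            push_cast at h4
            linear_combination h4
          · right
            rw [← ZMod.intCast_zmod_eq_zero_iff_dvd] at h4
            push_cast at h4
            linear_combination h4
        have hsub : ({(x : ZMod 3), (-x : ZMod 3), (y : ZMod 3), (-y : ZMod 3)} :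
            Finset (ZMod 3)) ⊆ {(x : ZMod 3), (-x : ZMod 3)} := by
          intro t ht
          simp only [Finset.mem_insert, Finset.mem_singleton] at ht ⊢
          rcases hxy with h | h
          · rw [h] at ht; tauto
          · rw [h, neg_neg] at ht; tauto
        exact lt_of_le_of_lt ((Finset.card_le_card hsub).trans Finset.card_le_two) (by norm_num)
      · have h5 : 5 ≤ p := by
          have := hp.two_le
          have h4 : p ≠ 4 := by rintro rfl; norm_num at hp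
          omega
        omega
  obtain ⟨u, hu1, hu2, hu⟩ := hK z hz (fun p => if p = 2 then {(x : ZMod p)} else
    {(x : ZMod p), (-x : ZMod p), (y : ZMod p), (-y : ZMod p)}) hΩ 1 n hn
  · refine ⟨u, hu1, by omega, ?_⟩
    have hu2' := hu 2 Nat.prime_two hz
    rw [if_pos rfl, Finset.mem_singleton, ZMod.intCast_eq_intCast_iff, Int.modEq_iff_dvd] at hu2'
    have hoddx : Odd (x + u) := by
      rw [← Int.not_even_iff_odd]
      rintro ⟨k, hk⟩
      apply hu2'
      push_cast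
      omega
    have hoddy : Odd (u + y) := by
      obtain ⟨k, hk⟩ := hoddx
      obtain ⟨l, hl⟩ := h2
      exact ⟨l + k - x, by omega⟩
    have key : ∀ p : ℕ, p.Prime → p ≤ z → p ≠ 2 →
        (¬ (p : ℤ) ∣ x + u ∧ ¬ (p : ℤ) ∣ x - u) ∧ (¬ (p : ℤ) ∣ u + y ∧ ¬ (p : ℤ) ∣ u - y) := by
      intro p hp hpz hp2
      have h := hu p hp hpz
      rw [if_neg hp2] at h
      simp only [Finset.mem_insert, Finset.mem_singleton, not_or] at h
      obtain ⟨e1, e2, e3, e4⟩ := h
      refine ⟨⟨fun hd => e2 ?_, fun hd => e1 ?_⟩, ⟨fun hd => e4 ?_, fun hd => e3 ?_⟩⟩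
      · rw [← ZMod.intCast_zmod_eq_zero_iff_dvd] at hd
        push_cast at hd
        linear_combination hd
      · rw [← ZMod.intCast_zmod_eq_zero_iff_dvd] at hd
        push_cast at hd
        linear_combination -hd
      · rw [← ZMod.intCast_zmod_eq_zero_iff_dvd] at hd
        push_cast at hd
        linear_combination hd
      · rw [← ZMod.intCast_zmod_eq_zero_iff_dvd] at hd
        push_cast at hd
        linear_combination hd
    exact ⟨⟨hoddx, fun p hp hpz hp2 => (key p hp hpz hp2).1⟩,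
      ⟨hoddy, fun p hp hpz hp2 => (key p hp hpz hp2).2⟩⟩

/-- The special step. -/
lemma exists_special {z n : ℕ} (hz : 3 ≤ z) (hn : z ^ (K + 2) ≤ n) {x : ℤ} (h3 : 3 ∣ x) :
    ∃ v : ℤ, 1 ≤ v ∧ v + 3 ≤ n ∧ Edge z x v ∧ ¬ 3 ∣ v ∧
      ∀ p : ℕ, p.Prime → p ≤ z → p ≠ 2 → ¬ (p : ℤ) ∣ 2 * v + 3 := by
  classical
  have hn3 : z ^ K + 3 ≤ n := by
    have h1 : 1 ≤ z ^ K := Nat.one_le_pow _ _ (by omega)
    have h2 : z ^ (K + 2) = z ^ K * (z * z) := by ring
    have h3 : 9 ≤ z * z := by nlinarith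
    have h4 : z ^ K * 9 ≤ z ^ K * (z * z) := Nat.mul_le_mul_left _ h3
    omega
  have hΩ : ∀ p : ℕ, p.Prime → p ≤ z →
      ((fun p : ℕ => if p = 2 then {(x : ZMod p)} else if p = 3 then {0} else
        ({(x : ZMod p), (-x : ZMod p), (-3 * (2 : ZMod p)⁻¹ : ZMod p)} :
          Finset (ZMod p))) p).card ≤ 4 ∧
      ((fun p : ℕ => if p = 2 then {(x : ZMod p)} else if p = 3 then {0} else
        ({(x : ZMod p), (-x : ZMod p), (-3 * (2 : ZMod p)⁻¹ : ZMod p)} :
          Finset (ZMod p))) p).card < p := by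
    intro p hp hpz
    show (if p = 2 then {(x : ZMod p)} else if p = 3 then {0} else
        ({(x : ZMod p), (-x : ZMod p), (-3 * (2 : ZMod p)⁻¹ : ZMod p)} :
          Finset (ZMod p))).card ≤ 4 ∧
      (if p = 2 then {(x : ZMod p)} else if p = 3 then {0} else
        ({(x : ZMod p), (-x : ZMod p), (-3 * (2 : ZMod p)⁻¹ : ZMod p)} :
          Finset (ZMod p))).card < p
    by_cases hp2 : p = 2
    · subst hp2
      rw [if_pos rfl]
      simp
    · rw [if_neg hp2]
      by_cases hp3 : p = 3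
      · subst hp3
        rw [if_pos rfl]
        simp
      · rw [if_neg hp3]
        have hc : ({(x : ZMod p), (-x : ZMod p), (-3 * (2 : ZMod p)⁻¹ : ZMod p)} :
            Finset (ZMod p)).card ≤ 3 := Finset.card_le_three
        have := hp.two_le
        have h4 : p ≠ 4 := by rintro rfl; norm_num at hp
        omega
  obtain ⟨u, hu1, hu2, hu⟩ := hK z (by omega) (fun p => if p = 2 then {(x : ZMod p)} else
    if p = 3 then {0} else
    {(x : ZMod p), (-x : ZMod p), (-3 * (2 : ZMod p)⁻¹ : ZMod p)}) hΩ 1 (n - 3) (by omega)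
  · have hu2' := hu 2 Nat.prime_two (by omega)
    rw [if_pos rfl, Finset.mem_singleton, ZMod.intCast_eq_intCast_iff, Int.modEq_iff_dvd] at hu2'
    have hu3 := hu 3 Nat.prime_three hz
    rw [if_neg (by norm_num), if_pos rfl, Finset.mem_singleton,
      ZMod.intCast_zmod_eq_zero_iff_dvd] at hu3
    have hu3' : ¬ (3 : ℤ) ∣ u := by exact_mod_cast hu3
    have hoddx : Odd (x + u) := by
      rw [← Int.not_even_iff_odd]
      rintro ⟨k, hk⟩
      apply hu2'
      push_cast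
      omega
    refine ⟨u, hu1, by omega, ⟨hoddx, fun p hp hpz hp2 => ?_⟩, hu3', fun p hp hpz hp2 => ?_⟩
    · by_cases hp3 : p = 3
      · subst hp3
        push_cast
        omega
      · have h := hu p hp hpz
        rw [if_neg hp2, if_neg hp3] at h
        simp only [Finset.mem_insert, Finset.mem_singleton, not_or] at h
        obtain ⟨e1, e2, -⟩ := h
        refine ⟨fun hd => e2 ?_, fun hd => e1 ?_⟩
        · rw [← ZMod.intCast_zmod_eq_zero_iff_dvd] at hd
          push_cast at hd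
          linear_combination hd
        · rw [← ZMod.intCast_zmod_eq_zero_iff_dvd] at hd
          push_cast at hd
          linear_combination -hd
    · by_cases hp3 : p = 3
      · subst hp3
        push_cast
        omega
      · have h := hu p hp hpz
        rw [if_neg hp2, if_neg hp3] at h
        simp only [Finset.mem_insert, Finset.mem_singleton, not_or] at h
        obtain ⟨-, -, e3⟩ := h
        have : Fact p.Prime := ⟨hp⟩
        have h20 : (2 : ZMod p) ≠ 0 := by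
          intro h0
          have h1 : ((2 : ℕ) : ZMod p) = 0 := by exact_mod_cast h0
          rw [ZMod.natCast_eq_zero_iff] at h1
          exact hp2 ((Nat.prime_dvd_prime_iff_eq hp Nat.prime_two).mp h1)
        intro hd
        apply e3
        rw [← ZMod.intCast_zmod_eq_zero_iff_dvd] at hd
        push_cast at hd
        field_simp
        linear_combination hd

end sieve

/-- The vertex `2x`. -/
def mkV (n : ℕ) (x : ℤ) (h1 : 1 ≤ x) (h2 : x ≤ n) : evenVertices n :=
  ⟨2 * x.toNat, even_two_mul _, by omega, by omega⟩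

lemma exists_mkV {n : ℕ} (a : evenVertices n) :
    ∃ (x : ℤ) (h1 : 1 ≤ x) (h2 : x ≤ n), a = mkV n x h1 h2 := by
  obtain ⟨a, ⟨r, hr⟩, h2, h3⟩ := a
  refine ⟨r, by omega, by omega, ?_⟩
  apply Subtype.ext
  show a = 2 * (r : ℤ).toNat
  omega

section graph

variable {P : Set ℕ} {n z : ℕ} (hPz : ∀ p ∈ P, p.Prime ∧ p ≠ 2 ∧ p ≤ z)

lemma interGraph_adj_of {a b : evenVertices n} (hne : a ≠ b)
    (h : ∀ p ∈ P, (modGraph p n).Adj a b) : (interGraph P n).Adj a b := by
  rw [interGraph, SimpleGraph.iInf_adj]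
  refine ⟨fun p => ?_, hne⟩
  rw [SimpleGraph.iInf_adj]
  exact ⟨fun hp => h p hp, hne⟩

include hPz

lemma adj_of_edge {x y : ℤ} (hx1 : 1 ≤ x) (hx2 : x ≤ n) (hy1 : 1 ≤ y) (hy2 : y ≤ n)
    (h : Edge z x y) : (interGraph P n).Adj (mkV n x hx1 hx2) (mkV n y hy1 hy2) := by
  have hne := h.ne
  apply interGraph_adj_of
  · intro heq
    have := congrArg (fun v : evenVertices n => (v : ℕ)) heq
    simp only [mkV] at this
    omega
  · intro p hp
    obtain ⟨hpp, hp2, hpz⟩ := hPz p hp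
    obtain ⟨h1, h2⟩ := h.2 p hpp hpz hp2
    obtain ⟨k, hk⟩ := h.1
    rw [modGraph, halfGraph_adj_iff (x := x.toNat) (y := y.toNat) rfl rfl]
    refine ⟨by omega, ⟨⟨k.toNat, by omega⟩, by omega, ?_⟩, ⟨?_, by omega, ?_⟩⟩
    · rintro ⟨l, -, hl⟩
      apply h1
      refine ⟨l, ?_⟩
      have h3 : x + y = ((x.toNat + y.toNat : ℕ) : ℤ) := by push_cast; omega
      rw [h3, hl]
      push_cast
      rfl
    · rw [Int.toNat_of_nonneg (by omega), Int.toNat_of_nonneg (by omega), Int.natAbs_odd]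
      exact ⟨k - y, by omega⟩
    · rintro ⟨l, -, hl⟩
      apply h2
      rw [Int.toNat_of_nonneg (by omega), Int.toNat_of_nonneg (by omega)] at hl
      rw [← Int.dvd_natAbs, hl]
      exact ⟨l, by push_cast; rfl⟩

lemma adj_of_special {x : ℤ} (hx1 : 1 ≤ x) (hx2 : x ≤ n) (hy1 : 1 ≤ x + 3) (hy2 : x + 3 ≤ n)
    (h : ∀ p : ℕ, p.Prime → p ≤ z → p ≠ 2 → ¬ (p : ℤ) ∣ 2 * x + 3) :
    (interGraph P n).Adj (mkV n x hx1 hx2) (mkV n (x + 3) hy1 hy2) := by
  apply interGraph_adj_of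
  · intro heq
    have := congrArg (fun v : evenVertices n => (v : ℕ)) heq
    simp only [mkV] at this
    omega
  · intro p hp
    obtain ⟨hpp, hp2, hpz⟩ := hPz p hp
    have h1 := h p hpp hpz hp2
    rw [modGraph, halfGraph_adj_iff (x := x.toNat) (y := (x + 3).toNat) rfl rfl]
    have e3 : ((x.toNat : ℤ) - ((x + 3).toNat : ℤ)).natAbs = 3 := by omega
    rw [e3]
    refine ⟨by omega, ⟨⟨x.toNat + 1, by omega⟩, by omega, ?_⟩, ⟨⟨1, by norm_num⟩, by omega, ?_⟩⟩
    · rintro ⟨l, -, hl⟩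
      apply h1
      refine ⟨l, ?_⟩
      have h3 : 2 * x + 3 = ((x.toNat + (x + 3).toNat : ℕ) : ℤ) := by push_cast; omega
      rw [h3, hl]
      push_cast
      rfl
    · rintro ⟨l, hl1, hl⟩
      have h3 : p ∣ 3 := ⟨l, hl⟩
      have h4 := (Nat.prime_dvd_prime_iff_eq hpp Nat.prime_three).mp h3
      rw [h4] at hl
      omega

variable {K : ℕ} (hK : ∀ z : ℕ, 2 ≤ z → ∀ Ω : (p : ℕ) → Finset (ZMod p),
    (∀ p, p.Prime → p ≤ z → (Ω p).card ≤ 4 ∧ (Ω p).card < p) →
    ∀ (a : ℤ) (M : ℕ), z ^ K ≤ M →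
      ∃ u : ℤ, a ≤ u ∧ u < a + M ∧ ∀ p, p.Prime → p ≤ z → (u : ZMod p) ∉ Ω p)
  (hz : 3 ≤ z) (hn : z ^ (K + 2) ≤ n)

include hK hz hn

/-- Case (a): same parity, same class modulo `3`. -/
lemma dist_two {x y : ℤ} (hx1 : 1 ≤ x) (hx2 : x ≤ n) (hy1 : 1 ≤ y) (hy2 : y ≤ n)
    (h2 : Even (x + y)) (h3 : 3 ∣ x ↔ 3 ∣ y) :
    (interGraph P n).edist (mkV n x hx1 hx2) (mkV n y hy1 hy2) ≤ 2 := by
  have hn' : z ^ K ≤ n := (Nat.pow_le_pow_right (by omega) (by omega)).trans hn
  obtain ⟨u, hu1, hu2, he1, he2⟩ := exists_common hK (by omega : 2 ≤ z) hn' h2 h3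
  have a1 := adj_of_edge hPz hx1 hx2 hu1 hu2 he1
  have a2 := adj_of_edge hPz hu1 hu2 hy1 hy2 he2
  calc (interGraph P n).edist (mkV n x hx1 hx2) (mkV n y hy1 hy2)
      ≤ (interGraph P n).edist (mkV n x hx1 hx2) (mkV n u hu1 hu2) +
        (interGraph P n).edist (mkV n u hu1 hu2) (mkV n y hy1 hy2) :=
        SimpleGraph.edist_triangle
    _ ≤ 1 + 1 := add_le_add (SimpleGraph.edist_eq_one_iff_adj.mpr a1).le
        (SimpleGraph.edist_eq_one_iff_adj.mpr a2).le
    _ = 2 := by norm_num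

/-- Case (b): different parity, different class modulo `3`. -/
lemma dist_three {x y : ℤ} (hx1 : 1 ≤ x) (hx2 : x ≤ n) (hy1 : 1 ≤ y) (hy2 : y ≤ n)
    (h2 : Odd (x + y)) (h3 : ¬ (3 ∣ x ↔ 3 ∣ y)) :
    (interGraph P n).edist (mkV n x hx1 hx2) (mkV n y hy1 hy2) ≤ 3 := by
  have hn' : z ^ K ≤ n := (Nat.pow_le_pow_right (by omega) (by omega)).trans hn
  obtain ⟨u, hu1, hu2, he1, he2⟩ := exists_common hK (by omega : 2 ≤ z) hn'
    (x := x) (y := x) ⟨x, rfl⟩ Iff.rfl
  have a1 := adj_of_edge hPz hx1 hx2 hu1 hu2 he1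
  have hpar : Even (u + y) := by
    obtain ⟨k, hk⟩ := he1.1
    obtain ⟨l, hl⟩ := h2
    exact ⟨k + l + 1 - x, by omega⟩
  have hcl : 3 ∣ u ↔ 3 ∣ y := by
    obtain ⟨e1, e2⟩ := he1.2 3 Nat.prime_three hz (by norm_num)
    push_cast at e1 e2
    have hx' : x % 3 = 0 ∨ x % 3 = 1 ∨ x % 3 = 2 := by omega
    have hu' : u % 3 = 0 ∨ u % 3 = 1 ∨ u % 3 = 2 := by omega
    rcases hx' with h | h | h <;> rcases hu' with h' | h' | h' <;> omega
  have a2 := dist_two hPz hK hz hn hu1 hu2 hy1 hy2 hpar hcl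
  calc (interGraph P n).edist (mkV n x hx1 hx2) (mkV n y hy1 hy2)
      ≤ (interGraph P n).edist (mkV n x hx1 hx2) (mkV n u hu1 hu2) +
        (interGraph P n).edist (mkV n u hu1 hu2) (mkV n y hy1 hy2) :=
        SimpleGraph.edist_triangle
    _ ≤ 1 + 2 := add_le_add (SimpleGraph.edist_eq_one_iff_adj.mpr a1).le a2
    _ = 3 := by norm_num

/-- Two special steps. -/
lemma dist_special {x : ℤ} (hx1 : 1 ≤ x) (hx2 : x ≤ n) (h3 : 3 ∣ x) :
    ∃ (v : ℤ) (h1 : 1 ≤ v) (h2 : v ≤ n),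
      (interGraph P n).edist (mkV n x hx1 hx2) (mkV n v h1 h2) ≤ 2 ∧ Even (x + v) ∧ ¬ 3 ∣ v := by
  obtain ⟨v, hv1, hv2, he, hv3, hv⟩ := exists_special hK hz hn h3
  have a1 := adj_of_edge hPz hx1 hx2 hv1 (by omega) he
  have a2 := adj_of_special (n := n) hPz hv1 (by omega) (by omega) hv2 hv
  refine ⟨v + 3, by omega, by omega, ?_, ?_, by omega⟩
  · calc (interGraph P n).edist (mkV n x hx1 hx2) (mkV n (v + 3) (by omega) (by omega))
        ≤ (interGraph P n).edist (mkV n x hx1 hx2) (mkV n v hv1 (by omega)) +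
          (interGraph P n).edist (mkV n v hv1 (by omega)) (mkV n (v + 3) (by omega) (by omega)) :=
          SimpleGraph.edist_triangle
      _ ≤ 1 + 1 := add_le_add (SimpleGraph.edist_eq_one_iff_adj.mpr a1).le
          (SimpleGraph.edist_eq_one_iff_adj.mpr a2).le
      _ = 2 := by norm_num
  · obtain ⟨k, hk⟩ := he.1
    exact ⟨k + 2, by omega⟩

/-- Case (c): same parity, `3 ∣ x`, `3 ∤ y`. -/
lemma dist_four {x y : ℤ} (hx1 : 1 ≤ x) (hx2 : x ≤ n) (hy1 : 1 ≤ y) (hy2 : y ≤ n)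
    (h2 : Even (x + y)) (h3 : 3 ∣ x) (h3' : ¬ 3 ∣ y) :
    (interGraph P n).edist (mkV n x hx1 hx2) (mkV n y hy1 hy2) ≤ 4 := by
  obtain ⟨v, hv1, hv2, hd, hv, hv3⟩ := dist_special hPz hK hz hn hx1 hx2 h3
  have a2 := dist_two hPz hK hz hn hv1 hv2 hy1 hy2
    (by
      obtain ⟨k, hk⟩ := hv
      obtain ⟨l, hl⟩ := h2
      exact ⟨k + l - x, by omega⟩) (by tauto)
  calc (interGraph P n).edist (mkV n x hx1 hx2) (mkV n y hy1 hy2)
      ≤ (interGraph P n).edist (mkV n x hx1 hx2) (mkV n v hv1 hv2) +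
        (interGraph P n).edist (mkV n v hv1 hv2) (mkV n y hy1 hy2) :=
        SimpleGraph.edist_triangle
    _ ≤ 2 + 2 := add_le_add hd a2
    _ = 4 := by norm_num

/-- All distances are at most five. -/
lemma dist_le_five {x y : ℤ} (hx1 : 1 ≤ x) (hx2 : x ≤ n) (hy1 : 1 ≤ y) (hy2 : y ≤ n) :
    (interGraph P n).edist (mkV n x hx1 hx2) (mkV n y hy1 hy2) ≤ 5 := by
  rcases Int.even_or_odd (x + y) with hpar | hpar
  · by_cases h3 : (3 ∣ x ↔ 3 ∣ y)
    · exact (dist_two hPz hK hz hn hx1 hx2 hy1 hy2 hpar h3).trans (by norm_num)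
    · by_cases hx : 3 ∣ x
      · have hy : ¬ 3 ∣ y := by tauto
        exact (dist_four hPz hK hz hn hx1 hx2 hy1 hy2 hpar hx hy).trans (by norm_num)
      · have hy : 3 ∣ y := by tauto
        rw [SimpleGraph.edist_comm]
        exact (dist_four hPz hK hz hn hy1 hy2 hx1 hx2 (by rwa [add_comm]) hy hx).trans
          (by norm_num)
  · by_cases h3 : (3 ∣ x ↔ 3 ∣ y)
    · by_cases hx : 3 ∣ x
      · have hy : 3 ∣ y := by tauto
        obtain ⟨v, hv1, hv2, hd, hv, hv3⟩ := dist_special hPz hK hz hn hx1 hx2 hx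
        have a2 := dist_three hPz hK hz hn hv1 hv2 hy1 hy2
          (by
            obtain ⟨k, hk⟩ := hv
            obtain ⟨l, hl⟩ := hpar
            exact ⟨k + l - x, by omega⟩) (by tauto)
        calc (interGraph P n).edist (mkV n x hx1 hx2) (mkV n y hy1 hy2)
            ≤ (interGraph P n).edist (mkV n x hx1 hx2) (mkV n v hv1 hv2) +
              (interGraph P n).edist (mkV n v hv1 hv2) (mkV n y hy1 hy2) :=
              SimpleGraph.edist_triangle
          _ ≤ 2 + 3 := add_le_add hd a2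
          _ = 5 := by norm_num
      · have hy : ¬ 3 ∣ y := by tauto
        have hn' : z ^ K ≤ n := (Nat.pow_le_pow_right (by omega) (by omega)).trans hn
        obtain ⟨u, hu1, hu2, he1, he2⟩ := exists_common hK (by omega : 2 ≤ z) hn'
          (x := x) (y := x) ⟨x, rfl⟩ Iff.rfl
        have a1 := adj_of_edge hPz hx1 hx2 hu1 hu2 he1
        have hu : 3 ∣ u := by
          obtain ⟨e1, e2⟩ := he1.2 3 Nat.prime_three hz (by norm_num)
          push_cast at e1 e2
          have hx' : x % 3 = 1 ∨ x % 3 = 2 := by omega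
          have hu' : u % 3 = 0 ∨ u % 3 = 1 ∨ u % 3 = 2 := by omega
          rcases hx' with h | h <;> rcases hu' with h' | h' | h' <;> omega
        have hpar' : Even (u + y) := by
          obtain ⟨k, hk⟩ := he1.1
          obtain ⟨l, hl⟩ := hpar
          exact ⟨k + l + 1 - x, by omega⟩
        have a2 := dist_four hPz hK hz hn hu1 hu2 hy1 hy2 hpar' hu hy
        calc (interGraph P n).edist (mkV n x hx1 hx2) (mkV n y hy1 hy2)
            ≤ (interGraph P n).edist (mkV n x hx1 hx2) (mkV n u hu1 hu2) +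
              (interGraph P n).edist (mkV n u hu1 hu2) (mkV n y hy1 hy2) :=
              SimpleGraph.edist_triangle
          _ ≤ 1 + 4 := add_le_add (SimpleGraph.edist_eq_one_iff_adj.mpr a1).le a2
          _ = 5 := by norm_num
    · exact (dist_three hPz hK hz hn hx1 hx2 hy1 hy2 hpar h3).trans (by norm_num)

theorem ediam_le_five : (interGraph P n).ediam ≤ 5 := by
  apply SimpleGraph.ediam_le_of_edist_le
  intro a b
  obtain ⟨x, hx1, hx2, rfl⟩ := exists_mkV a
  obtain ⟨y, hy1, hy2, rfl⟩ := exists_mkV b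
  exact dist_le_five hPz hK hz hn hx1 hx2 hy1 hy2

theorem connected : (interGraph P n).Connected := by
  have h1 : 1 ≤ z ^ (K + 2) := Nat.one_le_pow _ _ (by omega)
  have : Nonempty (evenVertices n) := ⟨mkV n 1 le_rfl (by omega)⟩
  apply SimpleGraph.connected_of_ediam_ne_top
  intro h
  have := ediam_le_five hPz hK hz hn
  rw [h] at this
  simp at this

end graph

end Pool.Agent.Goldbach
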